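import Mathlib
import Pool.Agent.Helper25.MX.Sum

/-!
# MixingRates (MP_81910f_an): definitions and statements of the pieces

Every `S_..` is the statement of a piece.  A piece file proves `theorem s_.. : S_..`.
-/

set_option autoImplicit false

open MeasureTheory Finset Filter

namespace Pool.Agent.Helper87.MX

open Pool.Agent.Helper25.MX (psi)

abbrev Tor := AddCircle (1 : ℝ)

/-- the dyadic arc `[i / 2 ^ K, (i + 1) / 2 ^ K)` of the circle; the same (by `rfl`) as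
`Helper75.RE.arc` -/
def arc (K i : ℕ) : Set Tor :=
  (fun t : ℝ => (t : Tor)) '' Set.Ico ((i : ℝ) / 2 ^ K) ((i + 1) / 2 ^ K)

/-- the Shannon entropy of the partition into the dyadic arcs of length `2 ^ (-K)`; the same (by
`rfl`) as `Pool.Agent.Helper61.RH.ent` -/
noncomputable def ent (μ : Measure Tor) (K : ℕ) : ℝ :=
  ∑ i ∈ range (2 ^ K), Real.negMulLog (μ.real (arc K i))

/-- the Fourier coefficient `∫ e(n x) dμ` -/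
noncomputable def cf (μ : Measure Tor) (n : ℤ) : ℂ := ∫ x, (fourier n x : ℂ) ∂μ

/-- invariance under `x ↦ g x` -/
def Inv (g : ℕ) (μ : Measure Tor) : Prop := MeasurePreserving (fun x : Tor => g • x) μ μ

/-- ergodicity under the two maps -/
def Ergo (μ : Measure Tor) : Prop := ∀ f : Tor → ℂ, Measurable f → (∀ x, ‖f x‖ ≤ 1) →
  (∀ᵐ x ∂μ, f ((2 : ℕ) • x) = f x) → (∀ᵐ x ∂μ, f ((3 : ℕ) • x) = f x) → ∃ c, ∀ᵐ x ∂μ, f x = c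

/-- the average of `e (k g ^ b x)` over `b ∈ F` -/
noncomputable def rav (g k : ℕ) (F : Finset ℕ) (x : Tor) : ℂ :=
  (∑ b ∈ F, (fourier ((k * g ^ b : ℕ) : ℤ) x : ℂ)) / F.card

/-- at least two of the three averages are at distance less than `‖c‖ / 2` from `c` -/
def good3 (g k : ℕ) (c : ℂ) (F : Fin 3 → Finset ℕ) : Set Tor :=
  {x | ∃ i j : Fin 3, i ≠ j ∧ ‖rav g k (F i) x - c‖ < ‖c‖ / 2 ∧ ‖rav g k (F j) x - c‖ < ‖c‖ / 2}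

/-- the triadic arc `[i / 3 ^ K, (i + 1) / 3 ^ K)` of the circle -/
def arc3 (K i : ℕ) : Set Tor :=
  (fun t : ℝ => (t : Tor)) '' Set.Ico ((i : ℝ) / 3 ^ K) ((i + 1) / 3 ^ K)

/-- the Shannon entropy of the partition into the triadic arcs of length `3 ^ (-K)` -/
noncomputable def ent3 (μ : Measure Tor) (K : ℕ) : ℝ :=
  ∑ i ∈ range (3 ^ K), Real.negMulLog (μ.real (arc3 K i))

/-- at most one of the arcs `I`, `I + 1 / 2` of length `2 ^ (-(K + 1))` meets `G` -/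
def Sep2 (K : ℕ) (G : Set Tor) : Prop :=
  ∀ i < 2 ^ K, (∀ x ∈ arc (K + 1) i, x ∉ G) ∨ ∀ x ∈ arc (K + 1) (i + 2 ^ K), x ∉ G

/-- at most one of the arcs `I`, `I + 1 / 3`, `I + 2 / 3` of length `3 ^ (-(K + 1))` meets `G` -/
def Sep3 (K : ℕ) (G : Set Tor) : Prop :=
  ∀ i < 3 ^ K, ∃ l : ℕ, l < 3 ∧ ∀ l' < 3, l' ≠ l → ∀ x ∈ arc3 (K + 1) (i + l' * 3 ^ K), x ∉ G

/-- `a` is the sequence of coefficients; correlations of order four of the single character `k`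
along the powers of `g`, at a summable nonincreasing rate `ρ` -/
def Mix4 (a : ℤ → ℂ) (g k : ℕ) : Prop :=
  ∃ (ρ : ℕ → ℝ) (γ : ℝ), Antitone ρ ∧ Summable ρ ∧ 1 / 2 < γ ∧
    ∀ (b₁ b₂ b₃ b₄ D : ℕ) (e₁ e₂ e₃ e₄ : ℤ), (e₁ = 0 ∨ e₁ = 1) → (e₂ = 0 ∨ e₂ = 1) →
      (e₃ = 0 ∨ e₃ = 1) → (e₄ = 0 ∨ e₄ = 1) →
      |(b₁ : ℝ) - b₂| ≤ (D : ℝ) ^ γ → |(b₃ : ℝ) - b₄| ≤ (D : ℝ) ^ γ →
      (D : ℝ) ≤ |(b₁ : ℝ) - b₃| → (D : ℝ) ≤ |(b₁ : ℝ) - b₄| →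
      (D : ℝ) ≤ |(b₂ : ℝ) - b₃| → (D : ℝ) ≤ |(b₂ : ℝ) - b₄| →
        ‖a (k * (e₁ * g ^ b₁ - e₂ * g ^ b₂ + (e₃ * g ^ b₃ - e₄ * g ^ b₄))) -
          a (k * (e₁ * g ^ b₁ - e₂ * g ^ b₂)) * a (k * (e₃ * g ^ b₃ - e₄ * g ^ b₄))‖ ≤ ρ D

/-! ## Rows -/

/-- E2, dyadic entropy step -/
def S_E2 : Prop := ∀ (μ : Measure Tor), IsProbabilityMeasure μ → Inv 2 μ →
  ∀ (K : ℕ) (G : Set Tor) (κ : ℝ), Sep2 K G → μ.real Gᶜ ≤ κ → κ ≤ 1 →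
    ent μ (K + 1) ≤ ent μ K + (κ + Real.negMulLog κ)

/-- E3, triadic entropy step -/
def S_E3 : Prop := ∀ (μ : Measure Tor), IsProbabilityMeasure μ → Inv 3 μ →
  ∀ (K : ℕ) (G : Set Tor) (κ : ℝ), Sep3 K G → μ.real Gᶜ ≤ κ → κ ≤ 1 →
    ent3 μ (K + 1) ≤ ent3 μ K + (κ * (1 + Real.log 2) + Real.negMulLog κ)

/-- E4, comparison of the dyadic and the triadic entropy -/
def S_E4 : Prop := ∀ (μ : Measure Tor), IsProbabilityMeasure μ →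
  ∀ K K' : ℕ, 2 ^ K ≤ 3 ^ K' → ent μ K ≤ ent3 μ K' + Real.log 2

/-- S2, separation along powers of three (`x ↦ x + 1 / 2` changes the sign of the averages) -/
def S_S2 : Prop := ∀ (k K : ℕ) (c : ℂ) (G : Set Tor), Odd k → c ≠ 0 →
  (∀ x ∈ G, ∀ y ∈ G, ∃ F : Finset ℕ, (∀ b ∈ F, Real.pi * k * 3 ^ b ≤ ‖c‖ * 2 ^ K) ∧
    ‖rav 3 k F x - c‖ < ‖c‖ / 2 ∧ ‖rav 3 k F y - c‖ < ‖c‖ / 2) → Sep2 K G

/-- S3, separation along powers of four (`x ↦ x + l / 3` multiplies the averages by `e (k l / 3)`,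
`|1 - e (k l / 3)| = √3`) -/
def S_S3 : Prop := ∀ (k K : ℕ) (c : ℂ) (G : Set Tor), ¬ 3 ∣ k → c ≠ 0 →
  (∀ x ∈ G, ∀ y ∈ G, ∃ F : Finset ℕ, (∀ b ∈ F, Even b ∧ Real.pi * k * 2 ^ b ≤ ‖c‖ * 3 ^ K) ∧
    ‖rav 2 k F x - c‖ < ‖c‖ / 2 ∧ ‖rav 2 k F y - c‖ < ‖c‖ / 2) → Sep3 K G

/-- A*, the entropy inequality for one character and averages along powers of three, for every
choice of the finite sets -/
def S_AR : Prop := ∀ (μ : Measure Tor), IsProbabilityMeasure μ → Inv 2 μ →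
  ∀ (k : ℕ) (c : ℂ) (F : ℕ → Finset ℕ), Odd k → c ≠ 0 →
    (∀ j, ∀ b ∈ F j, Real.pi * k * 3 ^ b ≤ ‖c‖ * 2 ^ j) →
    ∀ K : ℕ, ent μ K ≤ ∑ j ∈ range K,
      (μ.real {x | ‖c‖ / 2 ≤ ‖rav 3 k (F j) x - c‖} +
        Real.negMulLog (μ.real {x | ‖c‖ / 2 ≤ ‖rav 3 k (F j) x - c‖}))

/-- BL1: separation of two blocks.  `F₁`, `F₂` nonempty, contained in intervals of length at most
`D ^ γ`, at distance at least `D`. -/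
def S_BL1 : Prop := ∀ (μ : Measure Tor), IsProbabilityMeasure μ → ∀ (g k : ℕ) (ρ : ℕ → ℝ) (γ : ℝ)
  (c : ℂ), c ≠ 0 →
  (∀ (b₁ b₂ b₃ b₄ D : ℕ) (e₁ e₂ e₃ e₄ : ℤ), (e₁ = 0 ∨ e₁ = 1) → (e₂ = 0 ∨ e₂ = 1) →
      (e₃ = 0 ∨ e₃ = 1) → (e₄ = 0 ∨ e₄ = 1) →
      |(b₁ : ℝ) - b₂| ≤ (D : ℝ) ^ γ → |(b₃ : ℝ) - b₄| ≤ (D : ℝ) ^ γ →
      (D : ℝ) ≤ |(b₁ : ℝ) - b₃| → (D : ℝ) ≤ |(b₁ : ℝ) - b₄| →
      (D : ℝ) ≤ |(b₂ : ℝ) - b₃| → (D : ℝ) ≤ |(b₂ : ℝ) - b₄| →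
        ‖cf μ (k * (e₁ * g ^ b₁ - e₂ * g ^ b₂ + (e₃ * g ^ b₃ - e₄ * g ^ b₄))) -
          cf μ (k * (e₁ * g ^ b₁ - e₂ * g ^ b₂)) * cf μ (k * (e₃ * g ^ b₃ - e₄ * g ^ b₄))‖
            ≤ ρ D) →
  ∀ (D : ℕ) (F₁ F₂ : Finset ℕ), F₁.Nonempty → F₂.Nonempty →
    (∀ b ∈ F₁, ∀ b' ∈ F₁, |(b : ℝ) - b'| ≤ (D : ℝ) ^ γ) →
    (∀ b ∈ F₂, ∀ b' ∈ F₂, |(b : ℝ) - b'| ≤ (D : ℝ) ^ γ) →
    (∀ b ∈ F₁, ∀ b' ∈ F₂, (D : ℝ) ≤ |(b : ℝ) - b'|) →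
      ∫ x, ‖rav g k F₁ x - c‖ ^ 2 * ‖rav g k F₂ x - c‖ ^ 2 ∂μ ≤
        (∫ x, ‖rav g k F₁ x - c‖ ^ 2 ∂μ) * (∫ x, ‖rav g k F₂ x - c‖ ^ 2 ∂μ) +
          (1 + ‖c‖) ^ 4 * ρ D

/-- BL2: the variance of one block, from the correlations of order two -/
def S_BL2 : Prop := ∀ (μ : Measure Tor), IsProbabilityMeasure μ → ∀ (g k : ℕ) (ρ : ℕ → ℝ),
  2 ≤ g → Inv g μ → Antitone ρ → Summable ρ →
  (∀ b b' D : ℕ, (D : ℝ) ≤ |(b : ℝ) - b'| →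
    ‖cf μ (k * (g ^ b - g ^ b')) - cf μ (k * g ^ b) * cf μ (-(k * g ^ b'))‖ ≤ ρ D) →
  ∃ C : ℝ, ∀ F : Finset ℕ, F.Nonempty →
    ∫ x, ‖rav g k F x - cf μ k‖ ^ 2 ∂μ ≤ C / F.card

/-- BL: the blocks -/
def S_BL : Prop := ∀ (μ : Measure Tor), IsProbabilityMeasure μ → ∀ (g k : ℕ), 2 ≤ g → Inv g μ →
  cf μ k ≠ 0 → Mix4 (cf μ) g k →
  ∃ (F : ℕ → Fin 3 → Finset ℕ) (κ : ℕ → ℝ), Summable κ ∧ (∀ N, 0 ≤ κ N ∧ κ N ≤ 1) ∧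
    (∀ N i, ∀ b ∈ F N i, b ≤ N ∧ Even b) ∧ ∀ N, μ.real (good3 g k (cf μ k) (F N))ᶜ ≤ κ N

/-- CM: mixing of order four of one character with nonzero coefficient gives an atom -/
def S_CM : Prop := ∀ (μ : Measure Tor), IsProbabilityMeasure μ → Inv 2 μ → Inv 3 μ →
  ∀ (g k : ℕ), (g = 2 ∨ g = 3) → 1 ≤ k → cf μ k ≠ 0 → Mix4 (cf μ) g k → ∃ x, μ {x} ≠ 0

/-- CF: the case of finite support -/
def S_CF : Prop := ∀ (μ : Measure Tor), IsProbabilityMeasure μ → Inv 2 μ → Inv 3 μ →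
  (∃ Z : Set Tor, Z.Finite ∧ μ Zᶜ = 0) →
  ∀ (g k : ℕ), (g = 2 ∨ g = 3) → 1 ≤ k → Mix4 (cf μ) g k → cf μ k = 0 ∨ cf μ k = 1

/-! ## Windows -/

/-- `2 ^ a * 3 ^ b` -/
def su (p : ℕ × ℕ) : ℕ := 2 ^ p.1 * 3 ^ p.2

/-- the average of `e (k 2 ^ a 3 ^ b x)` over `(a, b) ∈ F` -/
noncomputable def wav (k : ℕ) (F : Finset (ℕ × ℕ)) (x : Tor) : ℂ :=
  (∑ p ∈ F, (fourier ((k * su p : ℕ) : ℤ) x : ℂ)) / F.card

/-- `F` is not empty and the numbers `2 ^ a 3 ^ b`, `(a, b) ∈ F`, are in `[4 ^ j, e ^ η 4 ^ j)` -/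
def Win (η : ℝ) (j : ℕ) (F : Finset (ℕ × ℕ)) : Prop :=
  F.Nonempty ∧ ∀ p ∈ F, (4 : ℝ) ^ j ≤ su p ∧ (su p : ℝ) < Real.exp η * 4 ^ j

/-- `∫ - log μ(B(x, r)) dμ(x)` -/
noncomputable def phi (μ : Measure Tor) (r : ℝ) : ℝ :=
  ∫ x, -Real.log (μ.real (Metric.closedBall x r)) ∂μ

/-- the mean square of `A_F / c - 1`, `c` the coefficient at `k`, in terms of the coefficients -/
noncomputable def var (a : ℤ → ℂ) (k : ℕ) (F : Finset (ℕ × ℕ)) : ℝ :=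
  (∑ p ∈ F, ∑ q ∈ F, (a (k * ((su p : ℤ) - su q))).re) / ((F.card : ℝ) ^ 2 * ‖a k‖ ^ 2) - 1

/-- W1, confinement -/
def S_W1 : Prop := ∀ (η : ℝ) (k j : ℕ) (c : ℂ) (F : Finset (ℕ × ℕ)), 1 ≤ k → c ≠ 0 → 0 < η →
  Real.pi * (Real.exp η - 1) ≤ ‖c‖ / 8 → Win η j F → ∀ x y : Tor,
    ‖wav k F x - c‖ < ‖c‖ / 8 → ‖wav k F y - c‖ < ‖c‖ / 8 →
      ‖x - y‖ ≤ 1 / (2 * k * 4 ^ j) → ‖x - y‖ ≤ 1 / (2 * k * 4 ^ (j + 1))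

/-- W2a, `∫_{B(z, r)} dμ(x) / μ(B(x, r / 4)) ≤ 8` -/
def S_W2a : Prop := ∀ (μ : Measure Tor), IsProbabilityMeasure μ → ∀ (r : ℝ), 0 < r → ∀ z : Tor,
  ∫⁻ x in Metric.closedBall z r, (μ (Metric.closedBall x (r / 4)))⁻¹ ∂μ ≤ 8

/-- W2b, integrability of `- log μ(B(x, r))` -/
def S_W2b : Prop := ∀ (μ : Measure Tor), IsProbabilityMeasure μ → ∀ (r : ℝ), 0 < r →
  Integrable (fun x => -Real.log (μ.real (Metric.closedBall x r))) μ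

/-- W2, the entropy step with balls -/
def S_W2 : Prop := ∀ (μ : Measure Tor), IsProbabilityMeasure μ → ∀ (r : ℝ) (G : Set Tor), 0 < r →
  MeasurableSet G → (∀ x ∈ G, ∀ y ∈ G, ‖x - y‖ ≤ r → ‖x - y‖ ≤ r / 4) →
    phi μ (r / 4) ≤ phi μ r + psi (μ.real Gᶜ)

/-- W3a, the first scale -/
def S_W3a : Prop := ∀ (μ : Measure Tor), IsProbabilityMeasure μ → ∀ k : ℕ, 1 ≤ k →
  phi μ (1 / (2 * k)) ≤ 2 * k

/-- W3b, dyadic entropy and masses of balls -/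
def S_W3b : Prop := ∀ (μ : Measure Tor), IsProbabilityMeasure μ → ∀ (r : ℝ) (K : ℕ), 0 < r →
  r * 2 ^ K ≤ 1 → ent μ K ≤ phi μ r + Real.log 3

/-- W4, the entropy inequality for one character and windows, for every choice of the windows -/
def S_W4 : Prop := ∀ (μ : Measure Tor), IsProbabilityMeasure μ →
  ∀ (η : ℝ) (k : ℕ) (c : ℂ) (F : ℕ → Finset (ℕ × ℕ)), 1 ≤ k → c ≠ 0 → 0 < η →
    Real.pi * (Real.exp η - 1) ≤ ‖c‖ / 8 → (∀ j, Win η j (F j)) →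
    ∀ K J : ℕ, K ≤ 2 * J → ent μ K ≤ 2 * k + 2 +
      ∑ j ∈ range J, psi (μ.real {x | ‖c‖ / 8 ≤ ‖wav k (F j) x - c‖})

/-- W5, measures of finite support: exact averages at all large scales -/
def S_W5 : Prop := ∀ (μ : Measure Tor), IsProbabilityMeasure μ → Inv 2 μ → Inv 3 μ →
  Ergo μ → (∃ Z : Set Tor, Z.Finite ∧ μ Zᶜ = 0) →
  ∀ (η : ℝ) (k : ℕ), 0 < η → 1 ≤ k →
    ∃ F : ℕ → Finset (ℕ × ℕ), (∀ j, Win η j (F j)) ∧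
      ∃ j₀ : ℕ, ∀ j, j₀ ≤ j → ∀ᵐ x ∂μ, wav k (F j) x = cf μ k

/-- VA, the variance identity -/
def S_VA : Prop := ∀ (μ : Measure Tor), IsProbabilityMeasure μ → Inv 2 μ → Inv 3 μ →
  ∀ (k : ℕ) (F : Finset (ℕ × ℕ)), F.Nonempty → cf μ k ≠ 0 →
    ∫ x, ‖wav k F x - cf μ k‖ ^ 2 ∂μ = ‖cf μ k‖ ^ 2 * var (cf μ) k F

/-- CH, Chebyshev -/
def S_CH : Prop := ∀ (μ : Measure Tor), IsProbabilityMeasure μ → Inv 2 μ → Inv 3 μ →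
  ∀ (k : ℕ) (F : Finset (ℕ × ℕ)), F.Nonempty → cf μ k ≠ 0 →
    μ.real {x | ‖cf μ k‖ / 8 ≤ ‖wav k F x - cf μ k‖} ≤ 64 * var (cf μ) k F

/-- WT, the five conditions for a measure (the implication from the weakest condition to atoms) -/
def S_WT : Prop := ∀ (μ : Measure Tor), IsProbabilityMeasure μ → Inv 2 μ → Inv 3 μ →
  ∀ (η : ℝ) (k : ℕ), 0 < η → 1 ≤ k → cf μ k ≠ 0 →
    Real.pi * (Real.exp η - 1) ≤ ‖cf μ k‖ / 8 →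
    (∃ F : ℕ → Finset (ℕ × ℕ), (∀ j, Win η j (F j)) ∧ Summable fun j : ℕ =>
      psi (μ.real {x | ‖cf μ k‖ / 8 ≤ ‖wav k (F j) x - cf μ k‖}) / Real.log ((j : ℝ) + 2)) →
    ∃ x, μ {x} ≠ 0

end Pool.Agent.Helper87.MX
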