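import Pool.Agent.Helper87.MX.Fr2

/-!
# MixingRates (MP_81910f_an): odd Lipschitz functions instead of averages
-/

set_option autoImplicit false

open MeasureTheory Finset Filter

namespace Pool.Agent.Helper87.MX

/-- `P` changes sign under `x ↦ x + 1 / 2` and has Lipschitz constant `2 ^ (j + 1)` -/
def OddLip (j : ℕ) (P : Tor → ℂ) : Prop :=
  (∀ x : Tor, P (x + ((1 / 2 : ℝ) : Tor)) = -P x) ∧
    ∀ x y : Tor, ‖P x - P y‖ ≤ 2 ^ (j + 1) * ‖x - y‖

/-- the measure of the set where `P` is far from `1` -/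
noncomputable def far (μ : Measure Tor) (P : Tor → ℂ) : ℝ := μ.real {x | 1 / 2 ≤ ‖P x - 1‖}

/-- SO: separation by an odd Lipschitz function -/
def S_SO : Prop := ∀ (K : ℕ) (P : Tor → ℂ), OddLip K P → Sep2 K {x | ‖P x - 1‖ < 1 / 2}

/-- ARo: the entropy inequality, for every choice of the odd Lipschitz functions -/
def S_ARo : Prop := ∀ (μ : Measure Tor), IsProbabilityMeasure μ → Inv 2 μ →
  ∀ P : ℕ → Tor → ℂ, (∀ j, OddLip j (P j)) →
    ∀ K : ℕ, ent μ K ≤ ∑ j ∈ range K, (far μ (P j) + Real.negMulLog (far μ (P j)))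

/-- UNo: uniform divergence, for every choice of the odd Lipschitz functions -/
def S_UNo : Prop := ∃ a : ℝ, 0 < a ∧ ∀ j₁ : ℕ, ∃ δ : ℝ, 0 < δ ∧
  ∀ (μ : Measure Tor), IsProbabilityMeasure μ → Inv 2 μ → Inv 3 μ → (∀ x, μ.real {x} < δ) →
  ∀ P : ℕ → Tor → ℂ, (∀ j, OddLip j (P j)) →
    ∃ J : ℕ, a < ∑ j ∈ Ico j₁ J,
      (far μ (P j) + Real.negMulLog (far μ (P j))) / Real.log ((j : ℝ) + 2)

/-- RG1: coefficients close to one give odd Lipschitz functions close to one -/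
def S_RG1 : Prop := ∀ (μ : Measure Tor), IsProbabilityMeasure μ → Inv 2 μ →
  ∀ n : ℕ → ℕ, (∀ j, 1 ≤ n j ∧ n j ≤ 2 ^ j) → (Summable fun j => ‖1 - cf μ (n j)‖) →
    ∃ P : ℕ → Tor → ℂ, (∀ j, OddLip j (P j)) ∧ Summable fun j => far μ (P j)

/-- RG2: if the weighted sum of the measures converges there are atoms -/
def S_RG2 : Prop := ∀ (μ : Measure Tor), IsProbabilityMeasure μ → Inv 2 μ → Inv 3 μ →
  ∀ P : ℕ → Tor → ℂ, (∀ j, OddLip j (P j)) →
    (Summable fun j : ℕ => (far μ (P j) + Real.negMulLog (far μ (P j))) / Real.log ((j : ℝ) + 2)) →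
    ∃ x, μ {x} ≠ 0

/-- RG3: finite support gives a coefficient equal to one -/
def S_RG3 : Prop := ∀ (μ : Measure Tor), IsProbabilityMeasure μ → Inv 2 μ →
  (∃ Z : Set Tor, Z.Finite ∧ μ Zᶜ = 0) → ∃ N : ℕ, 1 ≤ N ∧ cf μ N = 1

/-- CB: no character with nonzero coefficient is cohomologous to a constant, with an integrable
transfer function, unless there are atoms (helper48) -/
def S_CB : Prop := ∀ (μ : Measure Tor), IsProbabilityMeasure μ → Inv 2 μ → Inv 3 μ →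
  ∀ (k : ℕ) (g : Tor → ℂ), 1 ≤ k → cf μ k ≠ 0 → Integrable g μ →
    (∀ᵐ x ∂μ, (fourier (k : ℤ) x : ℂ) - cf μ k = g x - g ((3 : ℕ) • x)) → ∃ x, μ {x} ≠ 0

/-- the averages along powers of three are odd Lipschitz functions -/
def S_RO : Prop := ∀ (k j : ℕ) (c : ℂ) (F : Finset ℕ), Odd k → c ≠ 0 →
  (∀ b ∈ F, Real.pi * k * 3 ^ b ≤ ‖c‖ * 2 ^ j) → OddLip j (fun x => rav 3 k F x / c)

end Pool.Agent.Helper87.MX
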