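import Mathlib

/-!
# MixingRates (MP_81910f_an): the literal final statement (skeleton of the Results file), version 5
-/

set_option autoImplicit false
open scoped ComplexOrder
open MeasureTheory Finset

namespace Pool.Agent.Helper87.MX.FinalSt5

/-- normalised positive definite class functions -/
def traces (G : Subgroup (Equiv.Perm ℚ)) : Set (G → ℂ) :=
  {ψ : G → ℂ | ψ 1 = 1 ∧ (∀ g h : G, ψ (h * g * h⁻¹) = ψ g) ∧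
    ∀ (s : Finset G) (c : G → ℂ), 0 ≤ ∑ i ∈ s, ∑ j ∈ s, star (c j) * c i * ψ (j⁻¹ * i)}

/-- the span of the translates of `φ` by the translations in `G`; its dimension is the conditional
dimension of `φ` -/
def condSpan (G : Subgroup (Equiv.Perm ℚ)) (φ : G → ℂ) : Submodule ℂ (G → ℂ) :=
  Submodule.span ℂ {F : G → ℂ | ∃ n : G,
    (∃ r : ℚ, ∀ x : ℚ, (n : Equiv.Perm ℚ) x = x + r) ∧ F = fun x => φ (n * x)}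

/-- `μ` is the probability measure on the circle with Fourier coefficients `φ (τ ^ m)` -/
def IsMeasureOf {G : Subgroup (Equiv.Perm ℚ)} (τ : G) (φ : G → ℂ)
    (μ : Measure (AddCircle (1 : ℝ))) : Prop :=
  IsProbabilityMeasure μ ∧ ∀ m : ℤ, ∫ x, (fourier m x : ℂ) ∂μ = φ (τ ^ m)

/-- correlations of order four of the single character `k`, along the powers of `g`, in the range
`S`: the rate is `ρ` -/
def Mixing4 {G : Subgroup (Equiv.Perm ℚ)} (τ : G) (φ : G → ℂ) (g k : ℕ) (ρ : ℕ → ℝ) (γ : ℝ)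
    (S : Set ℕ) : Prop :=
  ∀ b₁ ∈ S, ∀ b₂ ∈ S, ∀ b₃ ∈ S, ∀ b₄ ∈ S, ∀ D ∈ S, ∀ e₁ e₂ e₃ e₄ : ℤ, (e₁ = 0 ∨ e₁ = 1) →
      (e₂ = 0 ∨ e₂ = 1) → (e₃ = 0 ∨ e₃ = 1) → (e₄ = 0 ∨ e₄ = 1) →
      |(b₁ : ℝ) - b₂| ≤ (D : ℝ) ^ γ → |(b₃ : ℝ) - b₄| ≤ (D : ℝ) ^ γ →
      (D : ℝ) ≤ |(b₁ : ℝ) - b₃| → (D : ℝ) ≤ |(b₁ : ℝ) - b₄| →
      (D : ℝ) ≤ |(b₂ : ℝ) - b₃| → (D : ℝ) ≤ |(b₂ : ℝ) - b₄| →
        ‖φ (τ ^ (k * (e₁ * g ^ b₁ - e₂ * g ^ b₂ + (e₃ * g ^ b₃ - e₄ * g ^ b₄)) : ℤ)) -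
          φ (τ ^ (k * (e₁ * g ^ b₁ - e₂ * g ^ b₂) : ℤ)) *
            φ (τ ^ (k * (e₃ * g ^ b₃ - e₄ * g ^ b₄) : ℤ))‖ ≤ ρ D

/-- `ρ` is a nonincreasing summable rate and `γ > 1 / 2` -/
def Rate (ρ : ℕ → ℝ) (γ : ℝ) : Prop := Antitone ρ ∧ Summable ρ ∧ 1 / 2 < γ

/-- `P` changes sign under `x ↦ x + 1 / 2` and has Lipschitz constant `2 ^ (j + 1)` -/
def OddLip (j : ℕ) (P : AddCircle (1 : ℝ) → ℂ) : Prop :=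
  (∀ x : AddCircle (1 : ℝ), P (x + ((1 / 2 : ℝ) : AddCircle (1 : ℝ))) = -P x) ∧
    ∀ x y : AddCircle (1 : ℝ), ‖P x - P y‖ ≤ 2 ^ (j + 1) * ‖x - y‖

/-- `v - v log v`, `v` the measure of the set where `P` is far from `1` -/
noncomputable def cost (μ : Measure (AddCircle (1 : ℝ))) (P : AddCircle (1 : ℝ) → ℂ) : ℝ :=
  μ.real {x | 1 / 2 ≤ ‖P x - 1‖} + Real.negMulLog (μ.real {x | 1 / 2 ≤ ‖P x - 1‖})

/-- the average of `e (k 3 ^ b x)` over `b ∈ F` -/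
noncomputable def avg (k : ℕ) (F : Finset ℕ) (x : AddCircle (1 : ℝ)) : ℂ :=
  (∑ b ∈ F, (fourier ((k * 3 ^ b : ℕ) : ℤ) x : ℂ)) / F.card

/-- **Coefficients of a trace.**  (A) Equivalent conditions for finite conditional dimension of an
extreme trace.  (B) Uniform version.  (C) Uniform version of the mixing criterion, for all traces. -/
def S_FINAL : Prop :=
  ∀ (s2 s3 t : Equiv.Perm ℚ), (∀ x : ℚ, s2 x = 2 * x) → (∀ x : ℚ, s3 x = 3 * x) →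
  (∀ x : ℚ, t x = x + 1) →
  ∀ (G : Subgroup (Equiv.Perm ℚ)), G = Subgroup.closure {s2, s3, t} →
  ∀ τ : G, (τ : Equiv.Perm ℚ) = t →
  (∀ φ : G → ℂ, φ ∈ Set.extremePoints ℝ (traces G) →
    ∃ μ : Measure (AddCircle (1 : ℝ)), IsMeasureOf τ φ μ ∧ List.TFAE [
    -- (1)
    FiniteDimensional ℂ (condSpan G φ),
    -- (2)
    ∃ N : ℕ, 1 ≤ N ∧ φ (τ ^ N) = 1,
    -- (3) coefficients close to one
    ∃ n : ℕ → ℕ, (∀ j, 1 ≤ n j ∧ n j ≤ 2 ^ j) ∧ Summable fun j => ‖1 - φ (τ ^ n j)‖,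
    -- (4) one nonzero coefficient mixes, to order four
    ∃ g k : ℕ, (g = 2 ∨ g = 3) ∧ 1 ≤ k ∧ φ (τ ^ k) ≠ 0 ∧
      ∃ (ρ : ℕ → ℝ) (γ : ℝ), Rate ρ γ ∧ Mixing4 τ φ g k ρ γ Set.univ,
    -- (5) a coboundary
    ∃ (k : ℕ) (g : AddCircle (1 : ℝ) → ℂ), 1 ≤ k ∧ φ (τ ^ k) ≠ 0 ∧ Integrable g μ ∧
      ∀ᵐ x ∂μ, (fourier (k : ℤ) x : ℂ) - φ (τ ^ k) = g x - g ((3 : ℕ) • x),
    -- (6) complete convergence along powers of three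
    ∃ (k : ℕ) (F : ℕ → Finset ℕ), 1 ≤ k ∧ φ (τ ^ k) ≠ 0 ∧ (∀ N, ∀ b ∈ F N, b ≤ N) ∧
      Summable fun N => μ.real {x | ‖φ (τ ^ k)‖ / 2 ≤ ‖avg k (F N) x - φ (τ ^ k)‖},
    -- (7) odd functions close to one
    ∃ P : ℕ → AddCircle (1 : ℝ) → ℂ, (∀ j, OddLip j (P j)) ∧
      Summable fun j : ℕ => cost μ (P j) / Real.log ((j : ℝ) + 2)]) ∧
  (∃ a : ℝ, 0 < a ∧ ∀ j₁ : ℕ, ∃ D : ℕ,
    ∀ φ : G → ℂ, φ ∈ Set.extremePoints ℝ (traces G) →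
      (D : Cardinal) < Module.rank ℂ (condSpan G φ) →
      ∀ μ : Measure (AddCircle (1 : ℝ)), IsMeasureOf τ φ μ →
      ∀ P : ℕ → AddCircle (1 : ℝ) → ℂ, (∀ j, OddLip j (P j)) →
        ∃ J : ℕ, a < ∑ j ∈ Ico j₁ J, cost μ (P j) / Real.log ((j : ℝ) + 2)) ∧
  ∀ (ρ : ℕ → ℝ) (γ ε : ℝ), Rate ρ γ → 0 < ε → ∃ L : ℕ,
    ∀ φ ∈ traces G, ∀ g k : ℕ, (g = 2 ∨ g = 3) → 1 ≤ k → Mixing4 τ φ g k ρ γ (Set.Iic L) →
      ‖φ (τ ^ k)‖ < ε ∨ ‖1 - φ (τ ^ k)‖ < ε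

end Pool.Agent.Helper87.MX.FinalSt5
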