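import Mathlib

/-!
# MixingRates (MP_81910f_an): the literal final statement (skeleton of the Results file), version 4
-/

set_option autoImplicit false
open scoped ComplexOrder
open MeasureTheory Finset

namespace Pool.Agent.Helper87.MX.FinalSt

/-- extreme normalised positive definite class functions -/
def IsExtremeTrace (G : Subgroup (Equiv.Perm ℚ)) (φ : G → ℂ) : Prop :=
  φ ∈ Set.extremePoints ℝ {ψ : G → ℂ | ψ 1 = 1 ∧ (∀ g h : G, ψ (h * g * h⁻¹) = ψ g) ∧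
    ∀ (s : Finset G) (c : G → ℂ), 0 ≤ ∑ i ∈ s, ∑ j ∈ s, star (c j) * c i * ψ (j⁻¹ * i)}

/-- the span of the translates of `φ` by the translations in `G`; its dimension is the conditional
dimension of `φ` -/
def condSpan (G : Subgroup (Equiv.Perm ℚ)) (φ : G → ℂ) : Submodule ℂ (G → ℂ) :=
  Submodule.span ℂ {F : G → ℂ | ∃ n : G,
    (∃ r : ℚ, ∀ x : ℚ, (n : Equiv.Perm ℚ) x = x + r) ∧ F = fun x => φ (n * x)}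

/-- `μ` is the probability measure on the circle with Fourier coefficients `φ (τ ^ m)` -/
def IsMeasureOf {G : Subgroup (Equiv.Perm ℚ)} (τ : G) (φ : G → ℂ)
    (μ : Measure (AddCircle (1 : ℝ))) : Prop :=
  IsProbabilityMeasure μ ∧ ∀ m : ℤ, ∫ x, (fourier m x : ℂ) ∂μ = φ (τ ^ m)

/-- correlations of order four of the single character `k`, along the powers of `g`, decay at a
summable rate -/
def Mixing4 {G : Subgroup (Equiv.Perm ℚ)} (τ : G) (φ : G → ℂ) (g k : ℕ) : Prop :=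
  ∃ (ρ : ℕ → ℝ) (γ : ℝ), Antitone ρ ∧ Summable ρ ∧ 1 / 2 < γ ∧
    ∀ (b₁ b₂ b₃ b₄ D : ℕ) (e₁ e₂ e₃ e₄ : ℤ), (e₁ = 0 ∨ e₁ = 1) → (e₂ = 0 ∨ e₂ = 1) →
      (e₃ = 0 ∨ e₃ = 1) → (e₄ = 0 ∨ e₄ = 1) →
      |(b₁ : ℝ) - b₂| ≤ (D : ℝ) ^ γ → |(b₃ : ℝ) - b₄| ≤ (D : ℝ) ^ γ →
      (D : ℝ) ≤ |(b₁ : ℝ) - b₃| → (D : ℝ) ≤ |(b₁ : ℝ) - b₄| →
      (D : ℝ) ≤ |(b₂ : ℝ) - b₃| → (D : ℝ) ≤ |(b₂ : ℝ) - b₄| →
        ‖φ (τ ^ (k * (e₁ * g ^ b₁ - e₂ * g ^ b₂ + (e₃ * g ^ b₃ - e₄ * g ^ b₄)) : ℤ)) -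
          φ (τ ^ (k * (e₁ * g ^ b₁ - e₂ * g ^ b₂) : ℤ)) *
            φ (τ ^ (k * (e₃ * g ^ b₃ - e₄ * g ^ b₄) : ℤ))‖ ≤ ρ D

/-- the average of `e (k 2 ^ a 3 ^ b x)` over `(a, b) ∈ F` -/
noncomputable def avg (k : ℕ) (F : Finset (ℕ × ℕ)) (x : AddCircle (1 : ℝ)) : ℂ :=
  (∑ p ∈ F, (fourier ((k * (2 ^ p.1 * 3 ^ p.2) : ℕ) : ℤ) x : ℂ)) / F.card

/-- `F` is not empty and the numbers `2 ^ a 3 ^ b`, `(a, b) ∈ F`, are in `[4 ^ j, e ^ η 4 ^ j)` -/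
def InWindow (η : ℝ) (j : ℕ) (F : Finset (ℕ × ℕ)) : Prop :=
  F.Nonempty ∧ ∀ p ∈ F, (4 : ℝ) ^ j ≤ (2 ^ p.1 * 3 ^ p.2 : ℕ) ∧
    ((2 ^ p.1 * 3 ^ p.2 : ℕ) : ℝ) < Real.exp η * 4 ^ j

/-- **Coefficients of an extreme trace.**  Equivalent conditions for finite conditional
dimension. -/
def S_FINAL : Prop :=
  ∀ (s2 s3 t : Equiv.Perm ℚ), (∀ x : ℚ, s2 x = 2 * x) → (∀ x : ℚ, s3 x = 3 * x) →
  (∀ x : ℚ, t x = x + 1) →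
  ∀ (G : Subgroup (Equiv.Perm ℚ)), G = Subgroup.closure {s2, s3, t} →
  ∀ τ : G, (τ : Equiv.Perm ℚ) = t →
  ∀ φ : G → ℂ, IsExtremeTrace G φ → ∀ μ : Measure (AddCircle (1 : ℝ)), IsMeasureOf τ φ μ →
    List.TFAE [
    -- (1)
    FiniteDimensional ℂ (condSpan G φ),
    -- (2)
    ∃ N : ℕ, 1 ≤ N ∧ φ (τ ^ N) = 1,
    -- (3) coefficients close to one
    ∃ n : ℕ → ℕ, (∀ j, 1 ≤ n j ∧ n j ≤ 2 ^ j) ∧ Summable fun j => ‖1 - φ (τ ^ n j)‖,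
    -- (4) one nonzero coefficient mixes, to order four
    ∃ g k : ℕ, (g = 2 ∨ g = 3) ∧ 1 ≤ k ∧ φ (τ ^ k) ≠ 0 ∧ Mixing4 τ φ g k,
    -- (5) a coboundary
    ∃ (k : ℕ) (g : AddCircle (1 : ℝ) → ℂ), 1 ≤ k ∧ φ (τ ^ k) ≠ 0 ∧ Integrable g μ ∧
      ∀ᵐ x ∂μ, (fourier (k : ℤ) x : ℂ) - φ (τ ^ k) = g x - g ((3 : ℕ) • x),
    -- (6) complete convergence along powers of three
    ∃ (k : ℕ) (F : ℕ → Finset (ℕ × ℕ)), 1 ≤ k ∧ φ (τ ^ k) ≠ 0 ∧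
      (∀ N, ∀ p ∈ F N, p.1 = 0 ∧ p.2 ≤ N) ∧
      Summable fun N => μ.real {x | ‖φ (τ ^ k)‖ / 2 ≤ ‖avg k (F N) x - φ (τ ^ k)‖},
    -- (7) complete convergence along windows
    ∃ (k : ℕ) (η : ℝ) (F : ℕ → Finset (ℕ × ℕ)), 1 ≤ k ∧ φ (τ ^ k) ≠ 0 ∧ 0 < η ∧
      Real.pi * (Real.exp η - 1) ≤ ‖φ (τ ^ k)‖ / 8 ∧ (∀ j, InWindow η j (F j)) ∧
      Summable fun j => μ.real {x | ‖φ (τ ^ k)‖ / 8 ≤ ‖avg k (F j) x - φ (τ ^ k)‖},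
    -- (8) exact averages
    (∃ k : ℕ, 1 ≤ k ∧ φ (τ ^ k) ≠ 0) ∧ ∀ (k : ℕ) (η : ℝ), 1 ≤ k → φ (τ ^ k) ≠ 0 → 0 < η →
      ∃ F : ℕ → Finset (ℕ × ℕ), (∀ j, InWindow η j (F j)) ∧
        ∀ᶠ j in Filter.atTop, ∀ᵐ x ∂μ, avg k (F j) x = φ (τ ^ k),
    -- (9) odd functions close to one
    ∃ P : ℕ → AddCircle (1 : ℝ) → ℂ,
      (∀ j, (∀ x : AddCircle (1 : ℝ), P j (x + ((1 / 2 : ℝ) : AddCircle (1 : ℝ))) = -P j x) ∧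
        ∀ x y : AddCircle (1 : ℝ), ‖P j x - P j y‖ ≤ 2 ^ (j + 1) * ‖x - y‖) ∧
      Summable fun j : ℕ => (μ.real {x | 1 / 2 ≤ ‖P j x - 1‖} +
        Real.negMulLog (μ.real {x | 1 / 2 ≤ ‖P j x - 1‖})) / Real.log ((j : ℝ) + 2)]

end Pool.Agent.Helper87.MX.FinalSt
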