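import Pool.Agent.Helper87.MX.Fr4

/-!
# MixingRates (MP_81910f_an): the uniform version of the mixing criterion, for all traces
-/

set_option autoImplicit false

open MeasureTheory Finset Filter

namespace Pool.Agent.Helper87.MX

/-- the inequality of `Mix4` in the range `[0, L]` -/
def MixR (a : ℤ → ℂ) (ρ : ℕ → ℝ) (γ : ℝ) (g k L : ℕ) : Prop :=
  ∀ (b₁ b₂ b₃ b₄ D : ℕ) (e₁ e₂ e₃ e₄ : ℤ), b₁ ≤ L → b₂ ≤ L → b₃ ≤ L → b₄ ≤ L → D ≤ L →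
      (e₁ = 0 ∨ e₁ = 1) → (e₂ = 0 ∨ e₂ = 1) → (e₃ = 0 ∨ e₃ = 1) → (e₄ = 0 ∨ e₄ = 1) →
      |(b₁ : ℝ) - b₂| ≤ (D : ℝ) ^ γ → |(b₃ : ℝ) - b₄| ≤ (D : ℝ) ^ γ →
      (D : ℝ) ≤ |(b₁ : ℝ) - b₃| → (D : ℝ) ≤ |(b₁ : ℝ) - b₄| →
      (D : ℝ) ≤ |(b₂ : ℝ) - b₃| → (D : ℝ) ≤ |(b₂ : ℝ) - b₄| →
        ‖a (k * (e₁ * g ^ b₁ - e₂ * g ^ b₂ + (e₃ * g ^ b₃ - e₄ * g ^ b₄))) -
          a (k * (e₁ * g ^ b₁ - e₂ * g ^ b₂)) * a (k * (e₃ * g ^ b₃ - e₄ * g ^ b₄))‖ ≤ ρ D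

/-- DC: the core of `S_CM` for any measure and any `c ≠ 0` (in `s_CM` the blocks come from `S_BL`;
here they are given; `k = 1`) -/
def S_DC : Prop := ∀ (ν : Measure Tor), IsProbabilityMeasure ν → Inv 2 ν → Inv 3 ν →
  ∀ (g : ℕ) (c : ℂ), (g = 2 ∨ g = 3) → c ≠ 0 → ∀ (F : ℕ → Fin 3 → Finset ℕ) (κ : ℕ → ℝ),
    Summable κ → (∀ N, 0 ≤ κ N ∧ κ N ≤ 1) → (∀ N i, ∀ b ∈ F N i, b ≤ N ∧ Even b) →
    (∀ N, ν.real (good3 g 1 c (F N))ᶜ ≤ κ N) → ∃ x, ν {x} ≠ 0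

/-- NA: the normalised non-atomic part -/
def S_NA : Prop := ∀ (μ : Measure Tor), IsProbabilityMeasure μ → Inv 2 μ → Inv 3 μ →
  μ {x | μ {x} = 0} ≠ 0 → ∃ ν : Measure Tor, IsProbabilityMeasure ν ∧ Inv 2 ν ∧ Inv 3 ν ∧
    (∀ x, ν {x} = 0) ∧ ∃ C : ℝ, 0 ≤ C ∧ ∀ B : Set Tor, ν.real B ≤ C * μ.real B

/-- PA: purely atomic measures; the orbits of the atoms are finite, the two-point correlations
along periods give `‖c‖ = 1`, hence `c = c ^ 2` -/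
def S_PA : Prop := ∀ (μ : Measure Tor), IsProbabilityMeasure μ → Inv 2 μ → Inv 3 μ →
  μ {x | μ {x} = 0} = 0 → ∀ g : ℕ, (g = 2 ∨ g = 3) → Mix4 (cf μ) g 1 → cf μ 1 = 1

/-- UA: all invariant measures -/
def S_UA : Prop := ∀ (μ : Measure Tor), IsProbabilityMeasure μ → Inv 2 μ → Inv 3 μ →
  ∀ g : ℕ, (g = 2 ∨ g = 3) → Mix4 (cf μ) g 1 → cf μ 1 = 0 ∨ cf μ 1 = 1

/-- UM: uniform version, by compactness (limits of the sequences of coefficients along an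
ultrafilter are positive definite; Herglotz) -/
def S_UM : Prop := ∀ (ρ : ℕ → ℝ) (γ ε : ℝ), Antitone ρ → Summable ρ → 1 / 2 < γ → 0 < ε →
  ∃ L : ℕ, ∀ (μ : Measure Tor), IsProbabilityMeasure μ → Inv 2 μ → Inv 3 μ →
    ∀ g : ℕ, (g = 2 ∨ g = 3) → MixR (cf μ) ρ γ g 1 L → ‖cf μ 1‖ < ε ∨ ‖1 - cf μ 1‖ < ε

end Pool.Agent.Helper87.MX
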