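import Pool.Agent.Helper87.MX.Fr3

/-!
# MixingRates (MP_81910f_an): complete convergence along powers of three
-/

set_option autoImplicit false

open MeasureTheory Finset Filter

namespace Pool.Agent.Helper87.MX

/-- CC: complete convergence of the averages of one character with nonzero coefficient over any
sets `F N ⊆ [0, N]` of exponents gives atoms (also for even `k`: the law of `rav 3 k F` is that of
`rav 3 k' F`, `k = 2 ^ l k'`) -/
def S_CC : Prop := ∀ (μ : Measure Tor), IsProbabilityMeasure μ → Inv 2 μ → Inv 3 μ →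
  ∀ (k : ℕ) (F : ℕ → Finset ℕ), 1 ≤ k → cf μ k ≠ 0 → (∀ N, ∀ b ∈ F N, b ≤ N) →
    (Summable fun N => μ.real {x | ‖cf μ k‖ / 2 ≤ ‖rav 3 k (F N) x - cf μ k‖}) → ∃ x, μ {x} ≠ 0

end Pool.Agent.Helper87.MX
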