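import Mathlib
import Pool.Agent.Helper35.MX.Uni
import Pool.Agent.Helper87.MX.FinalSt6

/-!
# MixingRates: the uniform form of the mixing item implies that a coefficient is one
-/

set_option autoImplicit false

open MeasureTheory Filter Helper17.FU Helper17.FUGroup Helper91.TTT

namespace Pool.Agent.Helper87.MX

open Pool.Agent.Helper87.MX.FinalSt5 (traces Mixing4 Rate)

/-- a trace has coefficients of absolute value at most one -/
theorem norm_coeff_le {s2 s3 t : Equiv.Perm ℚ} (h2 : ∀ x : ℚ, s2 x = 2 * x)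
    (h3 : ∀ x : ℚ, s3 x = 3 * x) (ht : ∀ x : ℚ, t x = x + 1) {τ : GG s2 s3 t}
    (hτ : (τ : Equiv.Perm ℚ) = t) {φ : GG s2 s3 t → ℂ} (hφ : φ ∈ TR (GG s2 s3 t)) (k : ℕ) :
    ‖φ (τ ^ k)‖ ≤ 1 := by
  obtain ⟨μ, hμ, hcf, -, -⟩ := Pool.Agent.Helper35.MX.exists_measure_mul h2 h3 ht hτ hφ k
  have h1 : cf μ 1 = φ (τ ^ k) := by rw [hcf, mul_one, zpow_natCast]
  rw [← h1]
  unfold cf
  refine (norm_integral_le_of_norm_le_const (C := 1) (Eventually.of_forall fun x => ?_)).trans ?_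
  · rw [fourier_apply]
    exact (Circle.norm_coe _).le
  · simp

theorem clause5 (hUM : S_UM) {s2 s3 t : Equiv.Perm ℚ} (h2 : ∀ x : ℚ, s2 x = 2 * x)
    (h3 : ∀ x : ℚ, s3 x = 3 * x) (ht : ∀ x : ℚ, t x = x + 1) {τ : GG s2 s3 t}
    (hτ : (τ : Equiv.Perm ℚ) = t) {φ : GG s2 s3 t → ℂ} (hφ : φ ∈ TR (GG s2 s3 t))
    (g k : ℕ) (ρ : ℕ → ℝ) (γ a ε : ℝ) (hg : g = 2 ∨ g = 3) (hk : 1 ≤ k) (hρ : Rate ρ γ)
    (ha : 0 < a) (ha1 : a ≤ 1) (hε : 0 < ε)
    (h : ∀ L : ℕ, ∃ ψ ∈ traces (GG s2 s3 t), ∃ ψ' ∈ traces (GG s2 s3 t),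
      (∀ x, ψ x = a * φ x + (1 - a) * ψ' x) ∧ ε ≤ ‖ψ (τ ^ k)‖ ∧
        Mixing4 τ ψ g k ρ γ (Set.Iic L)) : φ (τ ^ k) = 1 := by
  have hn := norm_coeff_le h2 h3 ht hτ hφ k
  -- the real part of `φ (τ ^ k)` is one
  have hre : 1 ≤ (φ (τ ^ k)).re := by
    by_contra hcon
    push Not at hcon
    have hpos : 0 < min ε (a * (1 - (φ (τ ^ k)).re)) :=
      lt_min hε (mul_pos ha (by linarith))
    obtain ⟨L, hL⟩ := Pool.Agent.Helper35.MX.uniform_traces hUM h2 h3 ht hτ ρ γ _ hρ hpos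
    obtain ⟨ψ, hψ, ψ', hψ', heq, hεψ, hmix⟩ := h L
    rcases hL ψ hψ g k hg hk hmix with h5 | h5
    · exact absurd (h5.trans_le (min_le_left _ _)) (not_lt.2 hεψ)
    · have h6 := h5.trans_le (min_le_right _ _)
      have h7 : (1 - ψ (τ ^ k)).re ≤ ‖1 - ψ (τ ^ k)‖ := Complex.re_le_norm _
      have h8 : (ψ' (τ ^ k)).re ≤ 1 :=
        (Complex.re_le_norm _).trans (norm_coeff_le h2 h3 ht hτ (φ := ψ') hψ' k)
      have h9 : (ψ (τ ^ k)).re = a * (φ (τ ^ k)).re + (1 - a) * (ψ' (τ ^ k)).re := by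
        rw [heq, Complex.add_re]
        have e1 : ((a : ℂ) * φ (τ ^ k)).re = a * (φ (τ ^ k)).re := by simp
        have e2 : ((1 - (a : ℂ)) * ψ' (τ ^ k)).re = (1 - a) * (ψ' (τ ^ k)).re := by
          have : (1 - (a : ℂ)) = ((1 - a : ℝ) : ℂ) := by push_cast; ring
          rw [this]
          simp
        rw [e1, e2]
      rw [Complex.sub_re, Complex.one_re, h9] at h7
      nlinarith
  have hre' : (φ (τ ^ k)).re = 1 := le_antisymm ((Complex.re_le_norm _).trans hn) hre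
  have him : (φ (τ ^ k)).im = 0 := by
    have h5 : ‖φ (τ ^ k)‖ ^ 2 ≤ 1 := by
      have := norm_nonneg (φ (τ ^ k))
      nlinarith
    rw [← Complex.normSq_eq_norm_sq, Complex.normSq_apply, hre'] at h5
    have h6 : (φ (τ ^ k)).im * (φ (τ ^ k)).im ≤ 0 := by linarith
    exact mul_self_eq_zero.1 (le_antisymm h6 (mul_self_nonneg _))
  exact Complex.ext (by simpa using hre') (by simpa using him)

end Pool.Agent.Helper87.MX
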