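import Pool.Agent.Helper87.MX.Fr

/-!
# MixingRates (MP_81910f_an): the uniform version
-/

set_option autoImplicit false

open MeasureTheory Finset Filter

namespace Pool.Agent.Helper87.MX

/-- UN: uniform divergence.  For measures with small atoms the (weighted) sum of the large
deviation probabilities over `j ≥ j₁` is at least `a`, for every choice of the sets `F j`. -/
def S_UN : Prop := ∃ a : ℝ, 0 < a ∧ ∀ j₁ : ℕ, ∃ δ : ℝ, 0 < δ ∧
  ∀ (μ : Measure Tor), IsProbabilityMeasure μ → Inv 2 μ → Inv 3 μ → (∀ x, μ.real {x} < δ) →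
  ∀ (k : ℕ) (c : ℂ) (F : ℕ → Finset ℕ), Odd k → c ≠ 0 →
    (∀ j, ∀ b ∈ F j, Real.pi * k * 3 ^ b ≤ ‖c‖ * 2 ^ j) →
    ∃ J : ℕ, a < ∑ j ∈ Ico j₁ J,
      (μ.real {x | ‖c‖ / 2 ≤ ‖rav 3 k (F j) x - c‖} +
        Real.negMulLog (μ.real {x | ‖c‖ / 2 ≤ ‖rav 3 k (F j) x - c‖})) / Real.log ((j : ℝ) + 2)

end Pool.Agent.Helper87.MX
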