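import Mathlib
import Pool.Agent.Helper87.MX.Fr5

/-!
# MixingRates: the normalised non-atomic part
-/

set_option autoImplicit false

open MeasureTheory Finset Filter

namespace Pool.Agent.Helper87.MX

theorem restrict_inv {μ : Measure Tor} [IsProbabilityMeasure μ] {g : ℕ} (h : Inv g μ)
    (hA : MeasurableSet {x : Tor | μ {x} = 0}) :
    MeasurePreserving (fun x : Tor => g • x) (μ.restrict {x | μ {x} = 0})
      (μ.restrict {x | μ {x} = 0}) := by
  have h' : MeasurePreserving (fun x : Tor => g • x) μ μ := h
  have hsub : (fun x : Tor => g • x) ⁻¹' {x | μ {x} = 0} ⊆ {x | μ {x} = 0} := by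
    intro x hx
    have h1 : μ ((fun x : Tor => g • x) ⁻¹' {g • x}) = μ {g • x} :=
      h'.measure_preimage (measurableSet_singleton _).nullMeasurableSet
    have h2 : μ {x} ≤ μ {g • x} := by
      rw [← h1]
      exact measure_mono (Set.singleton_subset_iff.2 rfl)
    have h3 : μ {g • x} = 0 := hx
    rw [h3] at h2
    exact le_antisymm h2 zero_le
  have hae : (fun x : Tor => g • x) ⁻¹' {x | μ {x} = 0} =ᵐ[μ] {x | μ {x} = 0} :=
    ae_eq_of_subset_of_measure_ge hsub (h'.measure_preimage hA.nullMeasurableSet).ge
      (h'.measurable hA).nullMeasurableSet (measure_ne_top _ _)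
  have h4 := h'.restrict_preimage hA
  rwa [Measure.restrict_congr_set hae] at h4

theorem s_NA : S_NA := by
  intro μ hμ h2 h3 hne
  have hcount : {x : Tor | μ {x} = 0}ᶜ.Countable := by
    have h5 := Measure.countable_meas_pos_of_disjoint_iUnion (μ := μ)
      (As := fun x : Tor => {x}) (fun x => measurableSet_singleton x)
      (fun x y hxy => Set.disjoint_singleton.2 hxy)
    refine h5.mono fun x hx => ?_
    exact pos_iff_ne_zero.2 hx
  have hA : MeasurableSet {x : Tor | μ {x} = 0} := hcount.measurableSet.of_compl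
  have hinv0 : (μ {x : Tor | μ {x} = 0})⁻¹ ≠ ⊤ := ENNReal.inv_ne_top.2 hne
  refine ⟨ProbabilityTheory.cond μ {x | μ {x} = 0}, ProbabilityTheory.cond_isProbabilityMeasure hne,
    ?_, ?_, ?_, (μ {x : Tor | μ {x} = 0})⁻¹.toReal, ENNReal.toReal_nonneg, ?_⟩
  · exact (restrict_inv h2 hA).smul_measure _
  · exact (restrict_inv h3 hA).smul_measure _
  · intro x
    rw [ProbabilityTheory.cond_apply hA]
    by_cases hx : μ {x} = 0
    · rw [measure_mono_null Set.inter_subset_right hx, mul_zero]
    · have : {x : Tor | μ {x} = 0} ∩ {x} = ∅ := by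
        ext y
        constructor
        · rintro ⟨hy, rfl⟩
          exact hx hy
        · intro hy
          exact hy.elim
      rw [this, measure_empty, mul_zero]
  · intro B
    unfold Measure.real
    rw [ProbabilityTheory.cond_apply hA, ENNReal.toReal_mul]
    refine mul_le_mul_of_nonneg_left ?_ ENNReal.toReal_nonneg
    exact ENNReal.toReal_mono (measure_ne_top _ _) (measure_mono Set.inter_subset_right)

end Pool.Agent.Helper87.MX
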